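import Pool.Agent.Lib.MP_8519b0_al.FinalD

/-!
# MP_8519b0_al : self-similar actions of `SL_3(Z)`, the faithful ones
-/

set_option autoImplicit false

open Pool.Agent.Lib.MP8519b0

/-- (1) A self-similar action of `SL_3(Z)` is faithful if and only if, for some letter `x` and some
good matrix `A`, all `g` fixing `x` have the section `A g A⁻¹` at `x`, or all have the section
`A (g⁻¹)ᵀ A⁻¹`. (2) Every good `A` occurs, in both forms. (3) Every faithful self-similar action
has at least `2 ^ n` orbits on the words of length `n + 1`. -/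
theorem Pool.Agent.Results.MP_8519b0_al.Classification.result :
    (∀ (m : ℕ) (ρ : G →* Equiv.Perm (List (Fin m))), SelfSimilar ρ →
      (Function.Injective ρ ↔ ∃ (x : Fin m) (A : MZ), Good A ∧
        ((∀ g : G, ρ g [x] = [x] → ∃ h : G, (h : MZ) * A = A * (g : MZ) ∧ Section ρ x g h) ∨
          (∀ g : G, ρ g [x] = [x] →
            ∃ h : G, (h : MZ) * A = A * ((g⁻¹ : G) : MZ).transpose ∧ Section ρ x g h)))) ∧
    (∀ A : MZ, Good A →
      (∃ (m : ℕ) (ρ : G →* Equiv.Perm (List (Fin m))) (x : Fin m), Function.Injective ρ ∧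
        SelfSimilar ρ ∧ LetterTransitive ρ ∧
        (∀ g : G, ρ g [x] = [x] ↔ ∃ h : G, (h : MZ) * A = A * (g : MZ)) ∧
        ∀ g h : G, (h : MZ) * A = A * (g : MZ) → Section ρ x g h) ∧
      (∃ (m : ℕ) (ρ : G →* Equiv.Perm (List (Fin m))) (x : Fin m), Function.Injective ρ ∧
        SelfSimilar ρ ∧ LetterTransitive ρ ∧
        (∀ g : G, ρ g [x] = [x] ↔ ∃ h : G, (h : MZ) * A = A * ((g⁻¹ : G) : MZ).transpose) ∧
        ∀ g h : G, (h : MZ) * A = A * ((g⁻¹ : G) : MZ).transpose → Section ρ x g h)) ∧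
    (∀ (m : ℕ) (ρ : G →* Equiv.Perm (List (Fin m))), Function.Injective ρ → SelfSimilar ρ →
      ∀ n : ℕ, ∃ f : Fin (2 ^ n) → List (Fin m), (∀ i, (f i).length = n + 1) ∧
        ∀ i j, i ≠ j → ∀ g : G, ρ g (f i) ≠ f j) :=
  theoremB2
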