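import Pool.Agent.Lib.MP_8519b0_al.FinalE

/-!
# MP_8519b0_al : self-similar actions of `SL_3(Z)` up to conjugation in the tree
-/

set_option autoImplicit false

open Pool.Agent.Lib.MP8519b0

/-- (1) If `SL_3(Z)` has a faithful self-similar action over `m` letters, transitive on the
letters, then `p² + p + 1` divides `m` for some prime `p`. (2) For every `m` there are only finitely
many such actions up to conjugation by automorphisms of the tree of words. (3) Up to conjugation by
automorphisms of the tree there are exactly four faithful self-similar actions of `SL_3(Z)` over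
seven letters. -/
theorem Pool.Agent.Results.MP_8519b0_al.FourActions.result :
    (∀ (m : ℕ) (ρ : G →* Equiv.Perm (List (Fin m))), Function.Injective ρ → SelfSimilar ρ →
      LetterTransitive ρ → ∃ p : ℕ, p.Prime ∧ p ^ 2 + p + 1 ∣ m) ∧
    (∀ m : ℕ, ∃ F : Set (G →* Equiv.Perm (List (Fin m))), F.Finite ∧
      (∀ ρ ∈ F, Function.Injective ρ ∧ SelfSimilar ρ ∧ LetterTransitive ρ) ∧
      ∀ ρ : G →* Equiv.Perm (List (Fin m)), Function.Injective ρ → SelfSimilar ρ →
        LetterTransitive ρ → ∃ ρ' ∈ F, Equi ρ' ρ) ∧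
    ∃ F : Fin 4 → (G →* Equiv.Perm (List (Fin 7))),
      (∀ i, Function.Injective (F i) ∧ SelfSimilar (F i)) ∧
      (∀ i j, i ≠ j → ¬ Equi (F i) (F j)) ∧
      ∀ σ : G →* Equiv.Perm (List (Fin 7)), Function.Injective σ → SelfSimilar σ →
        ∃ i, Equi (F i) σ :=
  ⟨theoremE1, theoremE2, theoremE3⟩
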