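import Pool.Agent.Lib.MP_8519b0_al.FinalC

/-!
# MP_8519b0_al : `SL_3(Z)` is not an automaton group
-/

set_option autoImplicit false

open Pool.Agent.Lib.MP8519b0

/-- (1) In every faithful self-similar action of `SL_3(Z)` over a finite alphabet some element fixes
all prefixes of an infinite word, and for every `c ≥ 1` the `c`-th powers of its sections at these
prefixes are pairwise not conjugate. (2) No subgroup of finite index consists of elements with
finitely many sections. (3) `SL_3(Z)` is not an automaton group: if it acts faithfully on the words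
over a finite alphabet, no finite generating set is closed under sections. -/
theorem Pool.Agent.Results.MP_8519b0_al.NotAutomatonGroup.result :
    (∀ (m : ℕ) (ρ : G →* Equiv.Perm (List (Fin m))), Function.Injective ρ → SelfSimilar ρ →
      ∃ (g : G) (w : ℕ → List (Fin m)) (s : ℕ → G),
        (∀ n, (w n).length = n ∧ w n <+: w (n + 1)) ∧
        (∀ (n : ℕ) (u : List (Fin m)), ρ g (w n ++ u) = w n ++ ρ (s n) u) ∧
        ∀ c : ℕ, 1 ≤ c → ∀ n n' : ℕ, n ≠ n' → ¬ IsConj (s n ^ c) (s n' ^ c)) ∧
    (∀ (m : ℕ) (ρ : G →* Equiv.Perm (List (Fin m))), Function.Injective ρ → SelfSimilar ρ →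
      ∀ K : Subgroup G, K.FiniteIndex → ∃ g ∈ K,
        {h : G | ∃ w v : List (Fin m), w.length = v.length ∧
          ∀ u : List (Fin m), ρ g (w ++ u) = v ++ ρ h u}.Infinite) ∧
    (∀ (m : ℕ) (ρ : G →* Equiv.Perm (List (Fin m))), Function.Injective ρ →
      ∀ S : Set G, S.Finite → Subgroup.closure S = ⊤ →
      ∃ s ∈ S, ∃ x : Fin m, ∀ s' ∈ S, ∀ y : Fin m, ∃ w : List (Fin m),
        ρ s (x :: w) ≠ y :: ρ s' w) :=
  ⟨theoremC1, theoremC2, theoremC3⟩
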