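import Pool.Agent.Lib.MP_8519b0_al.FinalA

/-!
# MP_8519b0_al : self-similar actions of `SL_3(Z)`, the possible alphabets
-/

set_option autoImplicit false

open Pool.Agent.Lib.MP8519b0

/-- `SL_3(Z)` has a faithful self-similar action on the words over an alphabet with `m` letters if
and only if `m ≥ 7`. -/
theorem Pool.Agent.Results.MP_8519b0_al.SevenLetters.result (m : ℕ) :
    (∃ ρ : G →* Equiv.Perm (List (Fin m)), Function.Injective ρ ∧ SelfSimilar ρ) ↔ 7 ≤ m :=
  theoremA m
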